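import Pool.Agent.Y836.VD.Key2
import Pool.Agent.Y836.VD.Main
import Pool.Agent.Y210.VD.Slab
import Pool.Agent.Y177.VD.Frame

/-!
# The growth of the constants in the volume difference inequality for sections (MP_ad3614_gt)

`gammaConst n k` is the best constant `γ_{n,k}` in the inequality
`|K|^{(n-k)/n} - |L|^{(n-k)/n} ≤ γ^k max_F (|K ∩ F| - |L ∩ F|)` for origin-symmetric convex bodies
`L ⊆ K ⊆ ℝⁿ` and `(n-k)`-dimensional subspaces `F` (definitions of the starting file
`DifferenceUnbounded`). We show `γ_{n,k} ≥ c √(n/k) / log n` for all `1 ≤ k ≤ n / (18 log n)`, with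
`c = 1 / 4000000`. In view of the known upper bound `γ_{n,k} ≤ C √(n/k) (log (e n/k))^{3/2}` this
determines `γ_{n,k}` up to logarithmic factors in this range; in particular the constants are
unbounded for every fixed codimension `k`.
-/

set_option autoImplicit false
open MeasureTheory Set Filter

namespace Pool.Agent.Results.MP_ad3614_gt.SharpGrowth

open Pool.Agent.Results.MP_ad3614_gt.DifferenceUnbounded Pool.Agent.Y836.VD

theorem bound : S_MAIN :=
  main_of (Pool.Agent.Y177.VD.framek Pool.Agent.Y210.VD.slabk) (keyk Pool.Agent.Y210.VD.ball)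

theorem to_top (k : ℕ) (hk : 1 ≤ k) :
    Tendsto (fun n : ℕ => gammaConst n k) atTop (nhds ⊤) := by
  rw [ENNReal.tendsto_nhds_top_iff_nnreal]
  intro M
  have hk0 : (0 : ℝ) < k := by exact_mod_cast hk
  have hM : (0 : ℝ) < (M : ℝ) + 1 := by positivity
  have hsk : 0 < √(k : ℝ) := Real.sqrt_pos.mpr hk0
  have l1 := (isLittleO_log_rpow_atTop (show (0 : ℝ) < 1 / 2 by norm_num)).def
    (show (0 : ℝ) < 1 / (4000000 * √(k : ℝ) * ((M : ℝ) + 1)) by positivity)
  have l2 := (Real.isLittleO_log_id_atTop).def (show (0 : ℝ) < 1 / (18 * (k : ℝ)) by positivity)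
  have l3 := tendsto_natCast_atTop_atTop (R := ℝ)
  filter_upwards [l3.eventually l1, l3.eventually l2, eventually_ge_atTop 3] with n h1 h2 h3
  have hn : (3 : ℝ) ≤ n := by exact_mod_cast h3
  have hL := log_ge_one n h3
  have hL0 : 0 < Real.log n := by linarith
  have hn0 : (0 : ℝ) < n := by linarith
  rw [Real.norm_of_nonneg hL0.le, ← Real.sqrt_eq_rpow,
    Real.norm_of_nonneg (Real.sqrt_nonneg _)] at h1
  rw [Real.norm_of_nonneg hL0.le, id, Real.norm_of_nonneg hn0.le] at h2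
  have h4 : 18 * (k : ℝ) * Real.log n ≤ n := by
    have h5 := mul_le_mul_of_nonneg_left h2 (show (0 : ℝ) ≤ 18 * k by positivity)
    have h6 : 18 * (k : ℝ) * (1 / (18 * k) * n) = n := by field_simp
    linarith
  refine lt_of_lt_of_le ?_ (bound n k h3 hk h4)
  have h5 : (M : ℝ) + 1 ≤ √((n : ℝ) / k) / (4000000 * Real.log n) := by
    rw [Real.sqrt_div hn0.le, le_div_iff₀ (by positivity), le_div_iff₀ hsk]
    have h7 := mul_le_mul_of_nonneg_left h1
      (show (0 : ℝ) ≤ 4000000 * √(k : ℝ) * ((M : ℝ) + 1) by positivity)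
    have h8 : 4000000 * √(k : ℝ) * ((M : ℝ) + 1) *
        (1 / (4000000 * √(k : ℝ) * ((M : ℝ) + 1)) * √(n : ℝ)) = √(n : ℝ) := by field_simp
    rw [h8] at h7
    linarith
  rw [← ENNReal.ofReal_coe_nnreal, ENNReal.ofReal_lt_ofReal_iff (by linarith)]
  linarith

/-- `γ_{n,k} ≥ c √(n/k) / log n` for `1 ≤ k ≤ n / (18 log n)`, `c = 1 / 4000000`; hence `γ_{n,k}`
tends to infinity for every fixed `k`, and there is no absolute constant. (The last statement says
that the suprema in the definition of `γ_{n,k}` are suprema of nonempty bounded sets.) -/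
theorem result :
    (∀ n k : ℕ, 3 ≤ n → 1 ≤ k → 18 * (k : ℝ) * Real.log n ≤ n →
      ENNReal.ofReal (√((n : ℝ) / k) / (4000000 * Real.log n)) ≤ gammaConst n k) ∧
    (∀ k : ℕ, 1 ≤ k → Tendsto (fun n : ℕ => gammaConst n k) atTop (nhds ⊤)) ∧
    (¬ ∃ C : ℝ, ∀ n k : ℕ, 2 ≤ n → 1 ≤ k → k < n → gammaConst n k ≤ ENNReal.ofReal C) ∧
    (∀ n k : ℕ, k < n → SecBounded n k) := by
  refine ⟨bound, to_top, ?_, fun n k hk K L hK _ =>
    ⟨secDiffs_nonempty n (n - k) (by omega) K L, bdd_sec n k K L hk hK⟩⟩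
  rintro ⟨C, hC⟩
  have h1 := (ENNReal.tendsto_nhds_top_iff_nnreal.1 (to_top 1 le_rfl)) C.toNNReal
  obtain ⟨n, h2, h3⟩ := (h1.and (eventually_ge_atTop 2)).exists
  exact absurd (hC n 1 h3 le_rfl (by omega)) (not_le.mpr h2)

end Pool.Agent.Results.MP_ad3614_gt.SharpGrowth
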